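import Mathlib

set_option autoImplicit false

open Filter Topology

namespace Pool.Agent.H870R3

/-- A smooth window function, positive exactly on `(4/5, 3)`; here `expNegInvGlue x` is
`exp (-1/x)` for `x > 0` and `0` for `x ≤ 0`. -/
noncomputable def win (u : ℝ) : ℝ := expNegInvGlue (u - 4 / 5) * expNegInvGlue (3 - u)

lemma win_contDiff : ContDiff ℝ (⊤ : ℕ∞) win := by
  unfold win
  exact (expNegInvGlue.contDiff.comp (contDiff_id.sub contDiff_const)).mul
    (expNegInvGlue.contDiff.comp (contDiff_const.sub contDiff_id))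

lemma win_nonneg (u : ℝ) : 0 ≤ win u :=
  mul_nonneg (expNegInvGlue.nonneg _) (expNegInvGlue.nonneg _)

lemma win_pos {u : ℝ} (h1 : 4 / 5 < u) (h2 : u < 3) : 0 < win u :=
  mul_pos (expNegInvGlue.pos_of_pos (by linarith)) (expNegInvGlue.pos_of_pos (by linarith))

lemma win_zero {u : ℝ} (h : u ≤ 4 / 5 ∨ 3 ≤ u) : win u = 0 := by
  unfold win
  rcases h with h | h
  · rw [expNegInvGlue.zero_of_nonpos (by linarith), zero_mul]
  · rw [expNegInvGlue.zero_of_nonpos (x := 3 - u) (by linarith), mul_zero]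

lemma win_compact : HasCompactSupport win := by
  refine HasCompactSupport.intro (isCompact_Icc (a := (4 / 5 : ℝ)) (b := 3)) fun u hu => ?_
  apply win_zero
  by_contra hcon
  push Not at hcon
  exact hu ⟨hcon.1.le, hcon.2.le⟩

lemma win_bound (j : ℕ) : ∃ C : ℝ, 0 ≤ C ∧ ∀ u, ‖iteratedDeriv j win u‖ ≤ C := by
  have hc : Continuous (iteratedFDeriv ℝ j win) :=
    win_contDiff.continuous_iteratedFDeriv (by exact_mod_cast le_top)
  obtain ⟨C, hC⟩ := hc.bounded_above_of_compact_support (win_compact.iteratedFDeriv j)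
  refine ⟨C, (norm_nonneg _).trans (hC 0), fun u => ?_⟩
  rw [← norm_iteratedFDeriv_eq_norm_iteratedDeriv]
  exact hC u

/-- the terms of the series -/
noncomputable def term (a : ℕ → ℝ) (k : ℕ) (v : ℝ) : ℝ :=
  a k * (1 / 2) ^ (k ^ 2) * win (4 ^ k * v)

lemma term_contDiff (a : ℕ → ℝ) (k : ℕ) : ContDiff ℝ (⊤ : ℕ∞) (term a k) := by
  unfold term
  exact contDiff_const.mul (win_contDiff.comp (contDiff_const.mul contDiff_id))

lemma term_bound (a : ℕ → ℝ) (ha : ∀ k, |a k| ≤ 1) (j : ℕ) : ∃ C : ℝ, 0 ≤ C ∧ ∀ k v,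
    ‖iteratedFDeriv ℝ j (term a k) v‖ ≤ C * ((1 / 2) ^ (k ^ 2) * (4 ^ k) ^ j) := by
  obtain ⟨C, hC0, hC⟩ := win_bound j
  refine ⟨C, hC0, fun k v => ?_⟩
  rw [norm_iteratedFDeriv_eq_norm_iteratedDeriv]
  have h1 : iteratedDeriv j (term a k) v =
      (a k * (1 / 2) ^ (k ^ 2)) * ((4 ^ k) ^ j * iteratedDeriv j win (4 ^ k * v)) := by
    have hw : ContDiff ℝ j win := win_contDiff.of_le (by exact_mod_cast le_top)
    have e1 : iteratedDeriv j (fun v : ℝ => win (4 ^ k * v)) =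
        fun v => (4 ^ k : ℝ) ^ j * iteratedDeriv j win (4 ^ k * v) :=
      iteratedDeriv_comp_const_mul hw (4 ^ k)
    have e2 : iteratedDeriv j (term a k) v =
        (a k * (1 / 2) ^ (k ^ 2)) * iteratedDeriv j (fun v : ℝ => win (4 ^ k * v)) v := by
      unfold term
      exact iteratedDeriv_const_mul_field _ _
    rw [e2, e1]
  rw [h1, norm_mul, norm_mul, norm_mul]
  have h2 : ‖a k‖ ≤ 1 := ha k
  have h3 := hC (4 ^ k * v)
  have h4 : ‖((1 : ℝ) / 2) ^ (k ^ 2)‖ = (1 / 2) ^ (k ^ 2) := by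
    rw [Real.norm_eq_abs, abs_of_nonneg (by positivity)]
  have h5 : ‖((4 : ℝ) ^ k) ^ j‖ = (4 ^ k) ^ j := by
    rw [Real.norm_eq_abs, abs_of_nonneg (by positivity)]
  rw [h4, h5]
  have h6 : (0 : ℝ) ≤ (1 / 2) ^ (k ^ 2) := by positivity
  have h7 : (0 : ℝ) ≤ (4 ^ k) ^ j := by positivity
  calc ‖a k‖ * (1 / 2) ^ (k ^ 2) * ((4 ^ k) ^ j * ‖iteratedDeriv j win (4 ^ k * v)‖)
      ≤ 1 * (1 / 2) ^ (k ^ 2) * ((4 ^ k) ^ j * C) := by gcongr
    _ = _ := by ring

lemma summable_bound (j : ℕ) :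
    Summable fun k : ℕ => ((1 / 2 : ℝ)) ^ (k ^ 2) * (4 ^ k) ^ j := by
  have hg : Summable fun k : ℕ => ((1 / 2 : ℝ)) ^ k := summable_geometric_two
  refine Summable.of_norm_bounded_eventually_nat hg ?_
  filter_upwards [eventually_ge_atTop (2 * j + 1)] with k hk
  rw [Real.norm_eq_abs, abs_of_nonneg (by positivity)]
  have e1 : ((4 : ℝ) ^ k) ^ j = 2 ^ (2 * k * j) := by
    rw [← pow_mul, show (4 : ℝ) = 2 ^ 2 by norm_num, ← pow_mul]
    congr 1; ring
  have e2 : ((1 : ℝ) / 2) ^ (k ^ 2) = (1 / 2) ^ (k ^ 2 - 2 * k * j) * (1 / 2) ^ (2 * k * j) := by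
    rw [← pow_add]
    congr 1
    have : 2 * k * j ≤ k ^ 2 := by nlinarith
    omega
  rw [e1, e2, mul_assoc, ← mul_pow]
  norm_num
  have h3 : k ≤ k ^ 2 - 2 * k * j := by
    have : 2 * k * j + k ≤ k ^ 2 := by nlinarith
    omega
  exact pow_le_pow_of_le_one (by norm_num : (0 : ℝ) ≤ 1 / 2) (by norm_num) h3

/-- `G(v) = ∑ a_k 2^(-k²) win(4^k v)` -/
noncomputable def GG (a : ℕ → ℝ) (v : ℝ) : ℝ := ∑' k : ℕ, term a k v

lemma GG_contDiff (a : ℕ → ℝ) (ha : ∀ k, |a k| ≤ 1) : ContDiff ℝ (⊤ : ℕ∞) (GG a) := by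
  choose C hC0 hC using term_bound a ha
  unfold GG
  refine contDiff_tsum (v := fun j k => C j * ((1 / 2) ^ (k ^ 2) * (4 ^ k) ^ j))
    (fun k => term_contDiff a k) (fun j _ => (summable_bound j).mul_left _) (fun j k v _ => hC j k v)

/-- The profile `F_a(s) = ∑ a_k 2^(-k²) win(4^k sin²(π s))`. -/
noncomputable def FF (a : ℕ → ℝ) (s : ℝ) : ℝ :=
  ∑' k : ℕ, a k * (1 / 2) ^ (k ^ 2) * win (4 ^ k * Real.sin (Real.pi * s) ^ 2)

lemma FF_contDiff (a : ℕ → ℝ) (ha : ∀ k, |a k| ≤ 1) : ContDiff ℝ (⊤ : ℕ∞) (FF a) := by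
  have : FF a = fun s => GG a (Real.sin (Real.pi * s) ^ 2) := rfl
  rw [this]
  exact (GG_contDiff a ha).comp ((Real.contDiff_sin.comp (contDiff_const.mul contDiff_id)).pow 2)

lemma FF_periodic (a : ℕ → ℝ) (s : ℝ) (m : ℤ) : FF a (s + m) = FF a s := by
  have h : Real.sin (Real.pi * (s + m)) ^ 2 = Real.sin (Real.pi * s) ^ 2 := by
    rw [Real.sin_sq_eq_half_sub, Real.sin_sq_eq_half_sub]
    have : 2 * (Real.pi * (s + m)) = 2 * (Real.pi * s) + m * (2 * Real.pi) := by ring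
    rw [this, Real.cos_add_int_mul_two_pi]
  unfold FF
  rw [h]

/-- the value of the profile at the test points -/
lemma FF_val (a : ℕ → ℝ) (k : ℕ) : ∃ c : ℝ, 0 < c ∧ FF a (1 / 2 ^ (k + 1)) = a k * c := by
  set θ : ℝ := Real.pi * (1 / 2 ^ (k + 1)) with hθ
  have hpi := Real.pi_pos
  have hpi2 : Real.pi < 3.15 := Real.pi_lt_d2
  have hθ0 : 0 ≤ θ := by positivity
  have hθ1 : θ ≤ Real.pi / 2 := by
    rw [hθ, pow_succ]
    have : (1 : ℝ) ≤ 2 ^ k := one_le_pow₀ (by norm_num)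
    rw [div_eq_mul_one_div Real.pi 2]
    apply mul_le_mul_of_nonneg_left _ hpi.le
    apply one_div_le_one_div_of_le (by norm_num)
    linarith
  have hs1 : 1 / 2 ^ k ≤ Real.sin θ := by
    refine le_trans (le_of_eq ?_) (Real.mul_le_sin hθ0 hθ1)
    rw [hθ, pow_succ]
    field_simp
  have hs2 : Real.sin θ ≤ θ := Real.sin_le hθ0
  have hs0 : 0 ≤ Real.sin θ := le_trans (by positivity) hs1
  have hlow : (1 : ℝ) / 4 ^ k ≤ Real.sin θ ^ 2 := by
    have : (1 : ℝ) / 4 ^ k = (1 / 2 ^ k) ^ 2 := by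
      rw [div_pow, one_pow, ← pow_mul, mul_comm k 2, pow_mul]; norm_num
    rw [this]
    exact pow_le_pow_left₀ (by positivity) hs1 2
  have hup : Real.sin θ ^ 2 ≤ 2.5 / 4 ^ k := by
    have h1 : Real.sin θ ^ 2 ≤ θ ^ 2 := pow_le_pow_left₀ hs0 hs2 2
    have h2 : θ ^ 2 = (Real.pi ^ 2 / 4) / 4 ^ k := by
      rw [hθ, mul_pow, div_pow, one_pow, ← pow_mul]
      have : (2 : ℝ) ^ ((k + 1) * 2) = 4 * 4 ^ k := by
        rw [mul_comm, pow_mul, pow_succ]; norm_num; ring
      rw [this]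
      field_simp
    rw [h2] at h1
    refine h1.trans ?_
    gcongr
    nlinarith
  have h4 : ∀ m : ℕ, (0 : ℝ) < 4 ^ m := fun m => by positivity
  have hz : ∀ j, j ≠ k → a j * (1 / 2) ^ (j ^ 2) * win (4 ^ j * Real.sin θ ^ 2) = 0 := by
    intro j hj
    have : win (4 ^ j * Real.sin θ ^ 2) = 0 := by
      apply win_zero
      rcases lt_or_gt_of_ne hj with h | h
      · left
        have h5 : (4 : ℝ) ^ (j + 1) ≤ 4 ^ k := pow_le_pow_right₀ (by norm_num) h
        have h6 : (4 : ℝ) ^ j * Real.sin θ ^ 2 ≤ 4 ^ j * (2.5 / 4 ^ k) :=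
          mul_le_mul_of_nonneg_left hup (h4 j).le
        have h7 : (4 : ℝ) ^ j * (2.5 / 4 ^ k) ≤ 2.5 / 4 := by
          rw [mul_div_assoc', div_le_div_iff₀ (h4 k) (by norm_num)]
          rw [pow_succ] at h5
          nlinarith
        refine (h6.trans h7).trans ?_
        norm_num
      · right
        have h5 : (4 : ℝ) ^ (k + 1) ≤ 4 ^ j := pow_le_pow_right₀ (by norm_num) h
        have h6 : (4 : ℝ) ^ j * (1 / 4 ^ k) ≤ 4 ^ j * Real.sin θ ^ 2 :=
          mul_le_mul_of_nonneg_left hlow (h4 j).le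
        have h7 : (4 : ℝ) ≤ 4 ^ j * (1 / 4 ^ k) := by
          rw [mul_one_div, le_div_iff₀ (h4 k)]
          rw [pow_succ] at h5
          linarith
        linarith
    rw [this, mul_zero]
  refine ⟨(1 / 2) ^ (k ^ 2) * win (4 ^ k * Real.sin θ ^ 2), mul_pos (by positivity) (win_pos ?_ ?_), ?_⟩
  · have h6 : (4 : ℝ) ^ k * (1 / 4 ^ k) ≤ 4 ^ k * Real.sin θ ^ 2 :=
      mul_le_mul_of_nonneg_left hlow (h4 k).le
    rw [mul_one_div_cancel (h4 k).ne'] at h6
    linarith
  · have h6 : (4 : ℝ) ^ k * Real.sin θ ^ 2 ≤ 4 ^ k * (2.5 / 4 ^ k) :=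
      mul_le_mul_of_nonneg_left hup (h4 k).le
    rw [mul_div_cancel₀ _ (h4 k).ne'] at h6
    linarith
  · unfold FF
    rw [tsum_eq_single k hz]
    ring

/-! ### Computable real sequences -/

/-- A sequence of real numbers is computable: uniformly in `k` and `m` one can compute a dyadic
rational `g k m / 2^m` at distance at most `1 / 2^m` from `a k`. -/
def ComputableReals (a : ℕ → ℝ) : Prop :=
  ∃ g : ℕ → ℕ → ℕ, Computable₂ g ∧ ∀ k m, |a k - g k m / 2 ^ m| ≤ 1 / 2 ^ m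

/-- the real number encoding whether `h t` is ever true -/
noncomputable def enc (h : ℕ → Bool) : ℝ := ∑' t : ℕ, if h t = true then (1 / 2 : ℝ) ^ (t + 1) else 0

lemma summable_geo : Summable fun t : ℕ => (1 / 2 : ℝ) ^ (t + 1) := by
  simpa [pow_succ] using summable_geometric_two.mul_right (1 / 2 : ℝ)

lemma tsum_geo : ∑' t : ℕ, (1 / 2 : ℝ) ^ (t + 1) = 1 := by
  simp_rw [pow_succ]
  rw [tsum_mul_right, tsum_geometric_two]; norm_num

lemma summable_enc (h : ℕ → Bool) :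
    Summable fun t : ℕ => if h t = true then (1 / 2 : ℝ) ^ (t + 1) else 0 :=
  Summable.of_nonneg_of_le (fun t => by split_ifs <;> positivity)
    (fun t => by split_ifs <;> [exact le_refl _; positivity]) summable_geo

lemma enc_nonneg (h : ℕ → Bool) : 0 ≤ enc h :=
  tsum_nonneg fun t => by split_ifs <;> positivity

lemma enc_le_one (h : ℕ → Bool) : enc h ≤ 1 := by
  rw [← tsum_geo]
  exact (summable_enc h).tsum_le_tsum (fun t => by split_ifs <;> [exact le_refl _; positivity])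
    summable_geo

lemma enc_pos_iff (h : ℕ → Bool) : 0 < enc h ↔ ∃ t, h t = true := by
  constructor
  · intro hpos
    by_contra hcon
    push Not at hcon
    have : enc h = 0 := by
      unfold enc
      have : (fun t : ℕ => if h t = true then (1 / 2 : ℝ) ^ (t + 1) else 0) = fun _ => 0 := by
        funext t
        rw [if_neg (hcon t)]
      rw [this, tsum_zero]
    linarith
  · rintro ⟨t, ht⟩
    refine (summable_enc h).tsum_pos (fun t => by split_ifs <;> positivity) t ?_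
    rw [if_pos ht]; positivity

/-- the approximations -/
def approx (h : ℕ → Bool) (m : ℕ) : ℕ :=
  Nat.rec 0 (fun t acc => 2 * acc + (if h t = true then 1 else 0)) m

lemma approx_succ (h : ℕ → Bool) (m : ℕ) :
    approx h (m + 1) = 2 * approx h m + (if h m = true then 1 else 0) := rfl

lemma approx_eq (h : ℕ → Bool) (m : ℕ) : (approx h m : ℝ) / 2 ^ m =
    ∑ t ∈ Finset.range m, if h t = true then (1 / 2 : ℝ) ^ (t + 1) else 0 := by
  induction m with
  | zero => simp [approx]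
  | succ m ih =>
    rw [Finset.sum_range_succ, ← ih, approx_succ]
    push_cast
    rw [pow_succ]
    split_ifs
    · rw [one_div, inv_pow, pow_succ]; field_simp
    · field_simp; norm_num

lemma enc_approx (h : ℕ → Bool) (m : ℕ) : |enc h - (approx h m : ℝ) / 2 ^ m| ≤ 1 / 2 ^ m := by
  have h1 : enc h = (∑ t ∈ Finset.range m, if h t = true then (1 / 2 : ℝ) ^ (t + 1) else 0) +
      ∑' t : ℕ, if h (t + m) = true then (1 / 2 : ℝ) ^ (t + m + 1) else 0 :=
    ((summable_enc h).sum_add_tsum_nat_add m).symm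
  rw [h1, approx_eq, add_sub_cancel_left]
  have h2 : ∀ t : ℕ, (if h (t + m) = true then (1 / 2 : ℝ) ^ (t + m + 1) else 0) =
      (1 / 2 ^ m) * (if h (t + m) = true then (1 / 2 : ℝ) ^ (t + 1) else 0) := by
    intro t
    split_ifs
    · have : t + m + 1 = m + (t + 1) := by ring
      rw [this, pow_add, one_div, one_div, inv_pow]
    · simp
  simp_rw [h2]
  rw [tsum_mul_left]
  have h3 : 0 ≤ enc (fun t => h (t + m)) := enc_nonneg _
  have h4 := enc_le_one (fun t => h (t + m))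
  change |1 / 2 ^ m * enc (fun t => h (t + m))| ≤ _
  rw [abs_of_nonneg (by positivity)]
  exact mul_le_of_le_one_right (by positivity) h4

lemma enc_computable (h : ℕ → ℕ → Bool) (hh : Computable₂ h) :
    ComputableReals (fun k => enc (h k)) := by
  refine ⟨fun k m => approx (h k) m, ?_, fun k m => enc_approx (h k) m⟩
  refine Computable.nat_rec (f := fun p : ℕ × ℕ => p.2) (g := fun _ => 0)
    (h := fun p q => 2 * q.2 + (if h p.1 q.1 = true then 1 else 0)) Computable.snd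
    (Computable.const 0) ?_
  have e1 : Computable (fun x : (ℕ × ℕ) × ℕ × ℕ => h x.1.1 x.2.1) :=
    hh.comp (Computable.fst.comp Computable.fst) (Computable.fst.comp Computable.snd)
  have e2 : Computable (fun x : (ℕ × ℕ) × ℕ × ℕ => cond (h x.1.1 x.2.1) 1 0) :=
    Computable.cond e1 (Computable.const 1) (Computable.const 0)
  have e3 : Computable (fun x : (ℕ × ℕ) × ℕ × ℕ => 2 * x.2.2) :=
    (Primrec.nat_mul.comp (Primrec.const 2) (Primrec.snd.comp Primrec.snd)).to_comp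
  refine (Primrec.nat_add.to_comp.comp e3 e2).of_eq fun x => ?_
  cases hx : h x.1.1 x.2.1 <;> simp [hx]

end Pool.Agent.H870R3
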