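import Mathlib

set_option autoImplicit false

open Filter Topology

namespace Pool.Agent.H870R3

/-- Euclidean space `ℝ³`; functions on the flat torus `ℝ³/ℤ³` are `ℤ³`-periodic functions on it. -/
abbrev E3 : Type := EuclideanSpace ℝ (Fin 3)

/-- The vector of the lattice `ℤ³` with coordinates `k`. -/
noncomputable def lat (k : Fin 3 → ℤ) : E3 := WithLp.toLp 2 fun i => (k i : ℝ)

/-- The coordinate unit vectors. -/
noncomputable def ee (i : Fin 3) : E3 := EuclideanSpace.single i 1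

/-- `X` is a stationary Euler flow on the flat torus `ℝ³/ℤ³`: a smooth, `ℤ³`-periodic vector field
with `(X · ∇) X = - ∇ p` and `div X = 0` for some smooth `ℤ³`-periodic function `p`. (On the flat
torus the Levi-Civita connection is the coordinatewise derivative.) -/
structure IsSteadyEuler (X : E3 → E3) : Prop where
  smooth : ContDiff ℝ (⊤ : ℕ∞) X
  periodic : ∀ (x : E3) (k : Fin 3 → ℤ), X (x + lat k) = X x
  div_free : ∀ x : E3, ∑ i, (fderiv ℝ X x (ee i)) i = 0
  euler : ∃ p : E3 → ℝ, ContDiff ℝ (⊤ : ℕ∞) p ∧ (∀ (x : E3) (k : Fin 3 → ℤ), p (x + lat k) = p x) ∧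
    ∀ x : E3, fderiv ℝ X x (X x) = - gradient p x

/-- The forward orbit of the point `x` of the torus under the flow of `X` meets (the image in the
torus of) the set `V`. -/
def OrbitMeets (X : E3 → E3) (x : E3) (V : Set E3) : Prop :=
  ∃ γ : ℝ → E3, γ 0 = x ∧ (∀ t, HasDerivAt γ (X (γ t)) t) ∧
    ∃ t : ℝ, 0 ≤ t ∧ ∃ k : Fin 3 → ℤ, γ t + lat k ∈ V

/-- the shear field `(0, 1, F(x₀))` -/
noncomputable def shearF (F : ℝ → ℝ) (x : E3) : E3 := ee 1 + F (x 0) • ee 2

lemma shear_hasFDerivAt (F : ℝ → ℝ) (hF : ContDiff ℝ (⊤ : ℕ∞) F) (x : E3) :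
    HasFDerivAt (shearF F)
      ((deriv F (x 0) • (EuclideanSpace.proj (0 : Fin 3) : E3 →L[ℝ] ℝ)).smulRight (ee 2)) x := by
  have h1 : HasFDerivAt (fun y : E3 => y 0) (EuclideanSpace.proj (0 : Fin 3) : E3 →L[ℝ] ℝ) x :=
    (EuclideanSpace.proj (0 : Fin 3) : E3 →L[ℝ] ℝ).hasFDerivAt
  have h2 : HasDerivAt F (deriv F (x 0)) (x 0) :=
    (hF.differentiable (by simp) (x 0)).hasDerivAt
  have h3 := h2.comp_hasFDerivAt x h1
  exact (h3.smul_const (ee 2)).const_add (ee 1)

lemma shear_steady (F : ℝ → ℝ) (hF : ContDiff ℝ (⊤ : ℕ∞) F)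
    (hper : ∀ (s : ℝ) (m : ℤ), F (s + m) = F s) : IsSteadyEuler (shearF F) where
  smooth := by
    unfold shearF
    refine contDiff_const.add (ContDiff.smul (hF.comp ?_) contDiff_const)
    exact (EuclideanSpace.proj (0 : Fin 3) : E3 →L[ℝ] ℝ).contDiff
  periodic x k := by
    unfold shearF
    have : (x + lat k) 0 = x 0 + (k 0 : ℝ) := rfl
    rw [this, hper]
  div_free x := by
    rw [(shear_hasFDerivAt F hF x).fderiv]
    simp [Fin.sum_univ_three, ee]
  euler := by
    refine ⟨fun _ => 0, contDiff_const, fun _ _ => rfl, fun x => ?_⟩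
    rw [(shear_hasFDerivAt F hF x).fderiv]
    have : gradient (fun _ : E3 => (0 : ℝ)) x = 0 := gradient_fun_const x 0
    rw [this]
    simp [shearF, ee]

/-- the test box -/
def box3 : Set E3 := {y | (0 < y 0 ∧ y 0 < 2) ∧ (0 < y 1 ∧ y 1 < 2) ∧ (1 / 4 < y 2 ∧ y 2 < 3 / 4)}

lemma shear_meets (F : ℝ → ℝ) (x : E3) (h0 : 0 < x 0 ∧ x 0 < 2) (h1 : x 1 = 0) (h2 : x 2 = 0)
    (hF : 0 ≤ F (x 0)) : OrbitMeets (shearF F) x box3 ↔ 0 < F (x 0) := by
  constructor
  · rintro ⟨γ, hγ0, hγ, t, ht, k, hk⟩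
    by_contra hcon
    have hFz : F (x 0) = 0 := le_antisymm (not_lt.1 hcon) hF
    have hcoord : ∀ (i : Fin 3) (t : ℝ), HasDerivAt (fun t => γ t i) (shearF F (γ t) i) t := by
      intro i t
      exact ((EuclideanSpace.proj i : E3 →L[ℝ] ℝ).hasFDerivAt).comp_hasDerivAt t (hγ t)
    have hc0 : ∀ t, γ t 0 = x 0 := by
      intro t
      have h : ∀ s, HasDerivAt (fun t => γ t 0) 0 s := by
        intro s
        have := hcoord 0 s
        simpa [shearF, ee] using this
      have hd : Differentiable ℝ (fun t => γ t 0) := fun s => (h s).differentiableAt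
      have := is_const_of_deriv_eq_zero hd (fun s => (h s).deriv) t 0
      simp only at this
      rw [this, hγ0]
    have hc2 : ∀ t, γ t 2 = 0 := by
      intro t
      have h : ∀ s, HasDerivAt (fun t => γ t 2) 0 s := by
        intro s
        have := hcoord 2 s
        simpa [shearF, ee, hc0 s, hFz] using this
      have hd : Differentiable ℝ (fun t => γ t 2) := fun s => (h s).differentiableAt
      have := is_const_of_deriv_eq_zero hd (fun s => (h s).deriv) t 0
      simp only at this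
      rw [this, hγ0, h2]
    obtain ⟨_, _, h3, h4⟩ := hk
    have e : (γ t + lat k) 2 = (k 2 : ℝ) := by
      show γ t 2 + (k 2 : ℝ) = _
      rw [hc2, zero_add]
    rw [e] at h3 h4
    have h5 : (0 : ℝ) < (k 2 : ℤ) := by linarith
    have h6 : ((k 2 : ℤ) : ℝ) < 1 := by linarith
    have h7 : (0 : ℤ) < k 2 := by exact_mod_cast h5
    have h8 : k 2 < 1 := by exact_mod_cast h6
    omega
  · intro hpos
    set v : E3 := ee 1 + F (x 0) • ee 2 with hv
    have hγ : ∀ t : ℝ, HasDerivAt (fun t : ℝ => x + t • v) v t := by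
      intro t
      have := ((hasDerivAt_id t).smul_const v).const_add x
      simpa using this
    have hv0 : v 0 = 0 := by simp [hv, ee]
    have hv1 : v 1 = 1 := by simp [hv, ee]
    have hv2 : v 2 = F (x 0) := by simp [hv, ee]
    refine ⟨fun t => x + t • v, by simp, fun t => ?_, 1 / (2 * F (x 0)), by positivity,
      ![0, 1 - ⌈1 / (2 * F (x 0))⌉, 0], ?_⟩
    · have e : shearF F (x + t • v) = v := by
        unfold shearF
        have : (x + t • v) 0 = x 0 := by
          show x 0 + t * v 0 = x 0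
          rw [hv0]; ring
        rw [this]
      rw [e]
      exact hγ t
    · set τ := 1 / (2 * F (x 0)) with hτ
      have c0 : (x + τ • v + lat ![0, 1 - ⌈τ⌉, 0]) 0 = x 0 := by
        show x 0 + τ * v 0 + ((![0, 1 - ⌈τ⌉, 0] : Fin 3 → ℤ) 0 : ℝ) = x 0
        rw [hv0]; simp
      have c1 : (x + τ • v + lat ![0, 1 - ⌈τ⌉, 0]) 1 = τ + 1 - ⌈τ⌉ := by
        show x 1 + τ * v 1 + ((![0, 1 - ⌈τ⌉, 0] : Fin 3 → ℤ) 1 : ℝ) = _
        rw [hv1, h1]; simp; ring
      have c2 : (x + τ • v + lat ![0, 1 - ⌈τ⌉, 0]) 2 = 1 / 2 := by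
        show x 2 + τ * v 2 + ((![0, 1 - ⌈τ⌉, 0] : Fin 3 → ℤ) 2 : ℝ) = _
        rw [hv2, h2, hτ]
        have := hpos.ne'
        simp; field_simp
      refine ⟨?_, ?_, ?_⟩
      · rw [c0]; exact h0
      · rw [c1]
        have := Int.ceil_lt_add_one τ
        have := Int.le_ceil τ
        constructor <;> linarith
      · rw [c2]; norm_num

end Pool.Agent.H870R3
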