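import Mathlib
import Pool.Agent.Helper322.LT.Univ

set_option autoImplicit false

namespace Pool.Agent.H870R3

open Turing

/-- A Turing machine `(Q, q₀, q_halt, Σ, δ)` with `Q = {0, …, n+1}`, `q₀ = 0`, `q_halt = 1`,
`Σ = {0, …, k}` with blank `0` and transition function `δ : Q × Σ → Q × Σ × {-1, 0, 1}`. -/
structure TM where
  n : ℕ
  k : ℕ
  δ : Fin (n + 2) → Fin (k + 1) → Fin (n + 2) × Fin (k + 1) × SignType

/-- Configurations: a state and a bi-infinite tape with finitely many non-blank symbols (with the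
head scanning the distinguished cell). -/
abbrev TM.Cfg (T : TM) : Type := Fin (T.n + 2) × Tape (Fin (T.k + 1))

/-- Moving the head by `-1`, `0` or `1` cells. -/
def mv {Γ : Type} [Inhabited Γ] : SignType → Tape Γ → Tape Γ
  | .neg, t => t.move Dir.left
  | .zero, t => t
  | .pos, t => t.move Dir.right

/-- One step of the machine. -/
def TM.step (T : TM) (c : T.Cfg) : T.Cfg :=
  ((T.δ c.1 c.2.head).1, mv (T.δ c.1 c.2.head).2.2 (c.2.write (T.δ c.1 c.2.head).2.1))

/-- The machine started in `c` reaches the halting state. -/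
def TM.Halts (T : TM) (c : T.Cfg) : Prop := ∃ m : ℕ, ((T.step)^[m] c).1 = 1

/-- The code of a transition: three natural numbers. -/
def sgn : SignType → ℕ
  | .neg => 0
  | .zero => 1
  | .pos => 2

/-- The code of a machine: the table of its transition function. -/
def TM.code (T : TM) : List (List (ℕ × ℕ × ℕ)) :=
  List.ofFn fun q => List.ofFn fun s =>
    (((T.δ q s).1 : ℕ), ((T.δ q s).2.1 : ℕ), sgn (T.δ q s).2.2)

/-- The initial configuration on the tape given by the (finite) words `c.1` (to the left of the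
head, read from right to left) and `c.2` (from the head to the right). -/
def TM.init (T : TM) (c : List (Fin (T.k + 1)) × List (Fin (T.k + 1))) : T.Cfg :=
  (0, Tape.mk₂ c.1 c.2)

/-- `U` is a universal Turing machine: there is a computable map `F` assigning to (the code of) a
machine `T` and (the code of) a configuration `c` of `T` an initial configuration of `U` such that
`T` halts on `c` if and only if `U` halts on it. -/
def TM.IsUniversal (U : TM) : Prop :=
  ∃ F : List (List (ℕ × ℕ × ℕ)) × ℕ × List ℕ × List ℕ →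
      List (Fin (U.k + 1)) × List (Fin (U.k + 1)),
    Computable F ∧ ∀ (T : TM) (q : Fin (T.n + 2)) (L R : List (Fin (T.k + 1))),
      T.Halts (q, Tape.mk₂ L R) ↔
        U.Halts (U.init (F (T.code, (q : ℕ), L.map Fin.val, R.map Fin.val)))

/-! ### Simulation on codes -/

/-- code configurations: state, left word, right word (starting with the scanned symbol) -/
abbrev CC := ℕ × List ℕ × List ℕ

def look (M : List (List (ℕ × ℕ × ℕ))) (q s : ℕ) : ℕ × ℕ × ℕ := ((M[q]?).getD [])[s]?.getD (0, 0, 0)

def stepC (M : List (List (ℕ × ℕ × ℕ))) (c : CC) : CC :=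
  if (look M c.1 c.2.2.headI).2.2 = 0 then
    ((look M c.1 c.2.2.headI).1, c.2.1.tail,
      c.2.1.headI :: (look M c.1 c.2.2.headI).2.1 :: c.2.2.tail)
  else if (look M c.1 c.2.2.headI).2.2 = 1 then
    ((look M c.1 c.2.2.headI).1, c.2.1, (look M c.1 c.2.2.headI).2.1 :: c.2.2.tail)
  else
    ((look M c.1 c.2.2.headI).1, (look M c.1 c.2.2.headI).2.1 :: c.2.1, c.2.2.tail)

lemma headI_map_val {k : ℕ} (l : List (Fin (k + 1))) : (l.map Fin.val).headI = (l.headI : ℕ) := by
  cases l <;> rfl

lemma look_code (T : TM) (q : Fin (T.n + 2)) (s : Fin (T.k + 1)) :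
    look T.code q s = (((T.δ q s).1 : ℕ), ((T.δ q s).2.1 : ℕ), sgn (T.δ q s).2.2) := by
  unfold look TM.code
  rw [List.getElem?_ofFn, dif_pos q.2, Option.getD_some, List.getElem?_ofFn, dif_pos s.2,
    Option.getD_some]

lemma mk2_head {Γ : Type} [Inhabited Γ] (L R : List Γ) : (Tape.mk₂ L R).head = R.headI := rfl

lemma mk2_write {Γ : Type} [Inhabited Γ] (L R : List Γ) (b : Γ) :
    (Tape.mk₂ L R).write b = Tape.mk₂ L (b :: R.tail) := rfl

lemma mk2_left {Γ : Type} [Inhabited Γ] (L R : List Γ) :
    (Tape.mk₂ L R).move Dir.left = Tape.mk₂ L.tail (L.headI :: R) := by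
  show (Tape.mk' (ListBlank.mk L) (ListBlank.mk R)).move Dir.left = _
  rw [Tape.move_left_mk']
  rfl

lemma mk2_right {Γ : Type} [Inhabited Γ] (L R : List Γ) :
    (Tape.mk₂ L R).move Dir.right = Tape.mk₂ (R.headI :: L) R.tail := by
  show (Tape.mk' (ListBlank.mk L) (ListBlank.mk R)).move Dir.right = _
  rw [Tape.move_right_mk']
  rfl

/-- the code configuration `c` presents the configuration `t` -/
def Pres (T : TM) (c : CC) (t : T.Cfg) : Prop :=
  ∃ L R : List (Fin (T.k + 1)), c = ((t.1 : ℕ), L.map Fin.val, R.map Fin.val) ∧ t.2 = Tape.mk₂ L R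

lemma Pres.step {T : TM} {c : CC} {t : T.Cfg} (h : Pres T c t) :
    Pres T (stepC T.code c) (T.step t) := by
  obtain ⟨q, tp⟩ := t
  obtain ⟨L, R, rfl, rfl : tp = _⟩ := h
  have hl : look T.code (q : ℕ) (R.map Fin.val).headI =
      (((T.δ q R.headI).1 : ℕ), ((T.δ q R.headI).2.1 : ℕ), sgn (T.δ q R.headI).2.2) := by
    rw [headI_map_val, look_code]
  have hd : T.δ q (Tape.mk₂ L R).head = T.δ q R.headI := by rw [mk2_head]
  unfold stepC TM.step
  simp only [hl, hd]
  rcases hs : (T.δ q R.headI).2.2 with _ | _ | _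
  · -- zero
    refine ⟨L, (T.δ q R.headI).2.1 :: R.tail, ?_, ?_⟩
    · simp [sgn, List.map_tail]
    · rfl
  · -- neg
    refine ⟨L.tail, L.headI :: (T.δ q R.headI).2.1 :: R.tail, ?_, ?_⟩
    · simp [sgn, List.map_tail, headI_map_val]
    · show ((Tape.mk₂ L R).write _).move Dir.left = _
      rw [mk2_write, mk2_left]
  · -- pos
    refine ⟨(T.δ q R.headI).2.1 :: L, R.tail, ?_, ?_⟩
    · simp [sgn, List.map_tail]
    · show ((Tape.mk₂ L R).write _).move Dir.right = _
      rw [mk2_write, mk2_right]
      rfl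

lemma Pres.iterate {T : TM} {c : CC} {t : T.Cfg} (h : Pres T c t) (m : ℕ) :
    Pres T ((stepC T.code)^[m] c) ((T.step)^[m] t) := by
  induction m with
  | zero => exact h
  | succ m ih =>
    rw [Function.iterate_succ_apply', Function.iterate_succ_apply']
    exact ih.step

lemma Pres.state {T : TM} {c : CC} {t : T.Cfg} (h : Pres T c t) : c.1 = (t.1 : ℕ) := by
  obtain ⟨L, R, rfl, _⟩ := h
  rfl

lemma pres_mk (T : TM) (q : Fin (T.n + 2)) (L R : List (Fin (T.k + 1))) :
    Pres T ((q : ℕ), L.map Fin.val, R.map Fin.val) (q, Tape.mk₂ L R) := ⟨L, R, rfl, rfl⟩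

lemma state_iff (T : TM) (q : Fin (T.n + 2)) (L R : List (Fin (T.k + 1))) (m : ℕ) :
    ((T.step)^[m] (q, Tape.mk₂ L R)).1 = 1 ↔
      ((stepC T.code)^[m] ((q : ℕ), L.map Fin.val, R.map Fin.val)).1 = 1 := by
  have h := ((pres_mk T q L R).iterate m).state
  rw [h, ← Fin.val_inj]
  rfl

lemma halts_iff (T : TM) (q : Fin (T.n + 2)) (L R : List (Fin (T.k + 1))) :
    T.Halts (q, Tape.mk₂ L R) ↔
      ∃ m, ((stepC T.code)^[m] ((q : ℕ), L.map Fin.val, R.map Fin.val)).1 = 1 :=
  exists_congr fun m => state_iff T q L R m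

/-! ### The step function on codes is computable -/

lemma primrec_headI : Primrec (fun l : List ℕ => l.headI) := by
  have : (fun l : List ℕ => l.headI) = fun l => (l.head?).getD 0 := by
    funext l; cases l <;> rfl
  rw [this]
  exact Primrec.option_getD.comp Primrec.list_head? (Primrec.const 0)

lemma primrec_look : Primrec (fun x : List (List (ℕ × ℕ × ℕ)) × ℕ × ℕ => look x.1 x.2.1 x.2.2) := by
  unfold look
  refine Primrec.option_getD.comp (Primrec.list_getElem?.comp (Primrec.option_getD.comp
    (Primrec.list_getElem?.comp Primrec.fst (Primrec.fst.comp Primrec.snd)) (Primrec.const []))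
    (Primrec.snd.comp Primrec.snd)) (Primrec.const (0, 0, 0))

lemma primrec_stepC : Primrec₂ stepC := by
  have hlook : Primrec (fun x : List (List (ℕ × ℕ × ℕ)) × CC =>
      look x.1 x.2.1 x.2.2.2.headI) :=
    primrec_look.comp (Primrec.pair Primrec.fst (Primrec.pair (Primrec.fst.comp Primrec.snd)
      (primrec_headI.comp (Primrec.snd.comp (Primrec.snd.comp Primrec.snd)))))
  have hq := Primrec.fst.comp hlook
  have hs := Primrec.fst.comp (Primrec.snd.comp hlook)
  have hd := Primrec.snd.comp (Primrec.snd.comp hlook)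
  have hL : Primrec (fun x : List (List (ℕ × ℕ × ℕ)) × CC => x.2.2.1) :=
    Primrec.fst.comp (Primrec.snd.comp Primrec.snd)
  have hR : Primrec (fun x : List (List (ℕ × ℕ × ℕ)) × CC => x.2.2.2) :=
    Primrec.snd.comp (Primrec.snd.comp Primrec.snd)
  unfold Primrec₂ stepC
  refine Primrec.ite (Primrec.eq.comp hd (Primrec.const 0)) ?_
    (Primrec.ite (Primrec.eq.comp hd (Primrec.const 1)) ?_ ?_)
  · exact Primrec.pair hq (Primrec.pair (Primrec.list_tail.comp hL)
      (Primrec.list_cons.comp (primrec_headI.comp hL)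
        (Primrec.list_cons.comp hs (Primrec.list_tail.comp hR))))
  · exact Primrec.pair hq (Primrec.pair hL (Primrec.list_cons.comp hs (Primrec.list_tail.comp hR)))
  · exact Primrec.pair hq (Primrec.pair (Primrec.list_cons.comp hs hL) (Primrec.list_tail.comp hR))

lemma primrec_iter : Primrec (fun x : (List (List (ℕ × ℕ × ℕ)) × CC) × ℕ =>
    (stepC x.1.1)^[x.2] x.1.2) :=
  Primrec.nat_iterate (f := fun x : (List (List (ℕ × ℕ × ℕ)) × CC) × ℕ => x.2)
    (g := fun x => x.1.2) (h := fun x c => stepC x.1.1 c) Primrec.snd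
    (Primrec.snd.comp Primrec.fst)
    (primrec_stepC.comp (Primrec.fst.comp (Primrec.fst.comp Primrec.fst)) Primrec.snd)

/-- has the halting state been reached at time `m`? -/
def hb (x : List (List (ℕ × ℕ × ℕ)) × CC) (m : ℕ) : Bool := ((stepC x.1)^[m] x.2).1 == 1

lemma primrec_hb : Primrec₂ hb := by
  unfold Primrec₂ hb
  exact Primrec.beq.comp (Primrec.fst.comp primrec_iter) (Primrec.const 1)

/-- The halting problem for codes is reducible to the domain of `u`. -/
lemma exists_reduction : ∃ r : List (List (ℕ × ℕ × ℕ)) × CC → ℕ, Computable r ∧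
    ∀ x, (∃ m, hb x m = true) ↔ (Helper322.LT.Univ.u (r x)).Dom := by
  have h1 : Partrec (fun x : List (List (ℕ × ℕ × ℕ)) × CC => Nat.rfind fun m =>
      (Part.some (hb x m))) := by
    apply Partrec.rfind
    exact (primrec_hb.to_comp.partrec₂ : Partrec₂ _)
  -- as a partial function on ℕ
  obtain ⟨c, hc⟩ := Nat.Partrec.Code.exists_code.1 h1
  refine ⟨fun x => Encodable.encode (Nat.Partrec.Code.comp c
    (Nat.Partrec.Code.const (Encodable.encode x))), ?_, ?_⟩
  · refine Computable.encode.comp ?_
    exact (Nat.Partrec.Code.primrec₂_comp.comp (Primrec.const c)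
      (Nat.Partrec.Code.primrec_const.comp Primrec.encode)).to_comp
  · intro x
    unfold Helper322.LT.Univ.u
    rw [Denumerable.ofNat_encode]
    have e1 : (Nat.Partrec.Code.comp c (Nat.Partrec.Code.const (Encodable.encode x))).eval 0 =
        c.eval (Encodable.encode x) := by
      simp only [Nat.Partrec.Code.eval, Nat.Partrec.Code.eval_const]
      exact Part.bind_some _ _
    rw [e1, hc]
    simp only [Encodable.encodek, Part.coe_some, Part.bind_some, Part.map_Dom]
    constructor
    · rintro ⟨m, hm⟩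
      exact Nat.rfind_dom.2 ⟨m, by simpa using hm, fun _ => trivial⟩
    · intro h
      obtain ⟨m, hm, _⟩ := Nat.rfind_dom.1 h
      exact ⟨m, by simpa using hm⟩

end Pool.Agent.H870R3
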