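import Mathlib
import Pool.Agent.H870R3.TMModel

set_option autoImplicit false

namespace Pool.Agent.H870R3

open Turing Relation

section ofTM0

variable {Γ Λ : Type} [Inhabited Γ] [Inhabited Λ]

/-- transition function of the translated machine -/
def tr0 (M : TM0.Machine Γ Λ) {n k : ℕ} (e : Option Λ ≃ Fin (n + 2)) (g : Γ ≃ Fin (k + 1))
    (q : Fin (n + 2)) (s : Fin (k + 1)) : Fin (n + 2) × Fin (k + 1) × SignType :=
  match (e.symm q).bind (fun l => M l (g.symm s)) with
  | none => (1, s, .zero)
  | some (l', .move Dir.left) => (e (some l'), s, .neg)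
  | some (l', .move Dir.right) => (e (some l'), s, .pos)
  | some (l', .write a) => (e (some l'), g a, .zero)

/-- the translated machine -/
def ofTM0 (M : TM0.Machine Γ Λ) {n k : ℕ} (e : Option Λ ≃ Fin (n + 2)) (g : Γ ≃ Fin (k + 1)) : TM :=
  ⟨n, k, tr0 M e g⟩

/-- the translation of configurations -/
def cf (M : TM0.Machine Γ Λ) {n k : ℕ} (e : Option Λ ≃ Fin (n + 2)) (g : Γ ≃ Fin (k + 1))
    (hg : g default = default) (c : TM0.Cfg Γ Λ) : (ofTM0 M e g).Cfg :=
  (e (some c.q), c.Tape.map ⟨g, hg⟩)

lemma step_eq (T : TM) (q : Fin (T.n + 2)) (t : Tape (Fin (T.k + 1)))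
    (a : Fin (T.n + 2) × Fin (T.k + 1) × SignType) (h : T.δ q t.head = a) :
    T.step (q, t) = (a.1, mv a.2.2 (t.write a.2.1)) := by
  subst h
  rfl

lemma cf_step_some (M : TM0.Machine Γ Λ) {n k : ℕ} (e : Option Λ ≃ Fin (n + 2))
    (g : Γ ≃ Fin (k + 1)) (hg : g default = default) (c c' : TM0.Cfg Γ Λ)
    (h : TM0.step M c = some c') :
    (ofTM0 M e g).step (cf M e g hg c) = cf M e g hg c' := by
  obtain ⟨q, t⟩ := c
  have hw : ∀ b : Γ, (t.map ⟨g, hg⟩ : Tape (Fin (k + 1))).write (g b) = (t.write b).map ⟨g, hg⟩ :=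
    fun b => (Tape.map_write ⟨g, hg⟩ b t).symm
  have hws : (t.map ⟨g, hg⟩ : Tape (Fin (k + 1))).write (g t.head) = t.map ⟨g, hg⟩ := by
    rw [hw, Tape.write_self]
  simp only [TM0.step] at h
  rcases hM : M q t.head with _ | ⟨l', a⟩
  · rw [hM] at h; simp at h
  · rw [hM] at h
    simp only [Option.map_some, Option.some.injEq] at h
    rcases a with d | b
    · rcases d with _ | _
      · have h1 : tr0 M e g (e (some q)) (g t.head) = (e (some l'), g t.head, .neg) := by
          simp [tr0, hM]
        have h2 := step_eq (ofTM0 M e g) (e (some q)) (t.map ⟨g, hg⟩) _ h1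
        subst h
        refine Eq.trans h2 ?_
        refine Prod.ext rfl ?_
        show ((t.map ⟨g, hg⟩ : Tape (Fin (k + 1))).write (g t.head)).move Dir.left = _
        rw [hws]
        exact (Tape.map_move _ _ _).symm
      · have h1 : tr0 M e g (e (some q)) (g t.head) = (e (some l'), g t.head, .pos) := by
          simp [tr0, hM]
        have h2 := step_eq (ofTM0 M e g) (e (some q)) (t.map ⟨g, hg⟩) _ h1
        subst h
        refine Eq.trans h2 ?_
        refine Prod.ext rfl ?_
        show ((t.map ⟨g, hg⟩ : Tape (Fin (k + 1))).write (g t.head)).move Dir.right = _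
        rw [hws]
        exact (Tape.map_move _ _ _).symm
    · have h1 : tr0 M e g (e (some q)) (g t.head) = (e (some l'), g b, .zero) := by
        simp [tr0, hM]
      have h2 := step_eq (ofTM0 M e g) (e (some q)) (t.map ⟨g, hg⟩) _ h1
      subst h
      refine Eq.trans h2 ?_
      exact Prod.ext rfl (hw b)

lemma cf_step_none (M : TM0.Machine Γ Λ) {n k : ℕ} (e : Option Λ ≃ Fin (n + 2))
    (g : Γ ≃ Fin (k + 1)) (hg : g default = default) (c : TM0.Cfg Γ Λ)
    (h : TM0.step M c = none) :
    ((ofTM0 M e g).step (cf M e g hg c)).1 = (1 : Fin (n + 2)) := by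
  obtain ⟨q, t⟩ := c
  have hM : M q t.head = none := by
    simpa [TM0.step] using h
  have h1 : tr0 M e g (e (some q)) (g t.head) = (1, g t.head, .zero) := by
    simp [tr0, hM]
  have h2 := step_eq (ofTM0 M e g) (e (some q)) (t.map ⟨g, hg⟩) _ h1
  exact congrArg Prod.fst h2

lemma ofTM0_halts (M : TM0.Machine Γ Λ) {n k : ℕ} (e : Option Λ ≃ Fin (n + 2))
    (he : e none = 1) (g : Γ ≃ Fin (k + 1)) (hg : g default = default) (c : TM0.Cfg Γ Λ) :
    (ofTM0 M e g).Halts (cf M e g hg c) ↔ (StateTransition.eval (TM0.step M) c).Dom := by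
  constructor
  · rintro ⟨m, hm⟩
    induction m generalizing c with
    | zero =>
      exfalso
      have h1 : e (some c.q) = 1 := hm
      rw [← he] at h1
      exact Option.some_ne_none _ (e.injective h1)
    | succ m ih =>
      rw [Function.iterate_succ_apply] at hm
      rcases hs : TM0.step M c with _ | c'
      · exact Part.dom_iff_mem.2 ⟨c, StateTransition.mem_eval.2 ⟨ReflTransGen.refl, hs⟩⟩
      · rw [cf_step_some M e g hg c c' hs] at hm
        have h1 := ih c' hm
        rw [StateTransition.reaches_eval (ReflTransGen.single hs)]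
        exact h1
  · intro h
    obtain ⟨b, hb⟩ := Part.dom_iff_mem.1 h
    obtain ⟨hr, hb⟩ := StateTransition.mem_eval.1 hb
    have key : ∀ b, StateTransition.Reaches (TM0.step M) c b →
        ∃ m, (((ofTM0 M e g).step)^[m] (cf M e g hg c)) = cf M e g hg b := by
      intro b hr
      induction hr with
      | refl => exact ⟨0, rfl⟩
      | tail _ hbc ih =>
        obtain ⟨m, hm⟩ := ih
        refine ⟨m + 1, ?_⟩
        rw [Function.iterate_succ_apply', hm]
        exact cf_step_some M e g hg _ _ hbc
    obtain ⟨m, hm⟩ := key b hr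
    refine ⟨m + 1, ?_⟩
    rw [Function.iterate_succ_apply', hm]
    exact cf_step_none M e g hg b hb

/-- Equivalences with the right base points. -/
lemma exists_equiv_fin_one {Γ : Type} [Inhabited Γ] [Finite Γ] :
    ∃ (k : ℕ) (g : Γ ≃ Fin (k + 1)), g default = default := by
  obtain ⟨m, ⟨g⟩⟩ := Finite.exists_equiv_fin Γ
  have hm : m ≠ 0 := by
    rintro rfl
    exact (g default).elim0
  obtain ⟨k, rfl⟩ := Nat.exists_eq_succ_of_ne_zero hm
  exact ⟨k, g.trans (Equiv.swap (g default) default), by simp⟩

lemma exists_equiv_fin_two {Λ : Type} [Inhabited Λ] [Finite Λ] :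
    ∃ (n : ℕ) (e : Option Λ ≃ Fin (n + 2)), e (some default) = 0 ∧ e none = 1 := by
  obtain ⟨m, ⟨g⟩⟩ := Finite.exists_equiv_fin (Option Λ)
  have hne : g (some default) ≠ g none := fun h => Option.some_ne_none _ (g.injective h)
  have hm : 2 ≤ m := by
    have h1 := (g (some default)).2
    have h2 := (g none).2
    have h3 : (g (some default) : ℕ) ≠ (g none : ℕ) := fun h => hne (Fin.ext h)
    omega
  obtain ⟨n, rfl⟩ := Nat.exists_eq_add_of_le' hm
  set e1 := g.trans (Equiv.swap (g (some default)) 0) with he1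
  have h1 : e1 (some default) = 0 := by simp [he1]
  have h2 : e1 none ≠ 0 := by
    rw [← h1]
    exact fun h => Option.some_ne_none _ (e1.injective h).symm
  refine ⟨n, e1.trans (Equiv.swap (e1 none) 1), ?_, by simp⟩
  show (Equiv.swap (e1 none) 1) (e1 (some default)) = 0
  rw [h1]
  exact Equiv.swap_apply_of_ne_of_ne h2.symm (by simp)

end ofTM0

instance : Finite PartrecToTM2.K' := by
  have : Function.Surjective (fun i : Fin 4 => (match i with
    | 0 => PartrecToTM2.K'.main | 1 => PartrecToTM2.K'.rev | 2 => PartrecToTM2.K'.aux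
    | 3 => PartrecToTM2.K'.stack)) := by
    intro k
    cases k
    · exact ⟨0, rfl⟩
    · exact ⟨1, rfl⟩
    · exact ⟨2, rfl⟩
    · exact ⟨3, rfl⟩
  exact Finite.of_surjective _ this

instance : Finite (TM2to1.Γ' PartrecToTM2.K' (fun _ => PartrecToTM2.Γ')) := by
  unfold TM2to1.Γ'
  infer_instance

/-- **Existence of a universal Turing machine.** -/
theorem exists_universal : ∃ U : TM, U.IsUniversal := by
  obtain ⟨Λ, i1, i2, M, hM⟩ := Helper322.LT.Univ.exists_machine
  obtain ⟨k, g, hg⟩ := exists_equiv_fin_one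
    (Γ := TM2to1.Γ' PartrecToTM2.K' (fun _ => PartrecToTM2.Γ'))
  obtain ⟨n, e, he0, he1⟩ := exists_equiv_fin_two (Λ := Λ)
  obtain ⟨r, hr, hr'⟩ := exists_reduction
  refine ⟨ofTM0 M e g, fun x => ([], g (Helper322.LT.Univ.sym true .cons) ::
    (PartrecToTM2.trNat (r x)).reverse.map (fun a => g (Helper322.LT.Univ.sym false a))), ?_, ?_⟩
  · have hd := (Helper322.LT.Univ.digits_computable
      (fun a => (g (Helper322.LT.Univ.sym false a) : ℕ))).comp hr
    have h1 : Computable (fun x => ((PartrecToTM2.trNat (r x)).map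
        (fun a => g (Helper322.LT.Univ.sym false a)))) := by
      have h2 : Computable (fun l : List ℕ => l.map (fun i => (Fin.ofNat (k + 1) i))) := by
        refine (Primrec.list_map Primrec.id ?_).to_comp
        have h3 : Primrec (fun i : ℕ => Fin.ofNat (k + 1) i) := by
          rw [← Primrec.fin_val_iff]
          exact Primrec.nat_mod.comp Primrec.id (Primrec.const _)
        exact h3.comp Primrec.snd
      refine (h2.comp hd).of_eq fun x => ?_
      rw [List.map_map]
      congr 1
      funext a
      simp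
    refine Computable.pair (Computable.const []) ?_
    refine Computable.list_cons.comp (Computable.const _) ?_
    refine (Computable.list_reverse.comp h1).of_eq fun x => ?_
    exact List.map_reverse.symm
  · intro T q L R
    rw [halts_iff]
    have h1 : (∃ m, ((stepC T.code)^[m] ((q : ℕ), L.map Fin.val, R.map Fin.val)).1 = 1) ↔
        ∃ m, hb (T.code, ((q : ℕ), L.map Fin.val, R.map Fin.val)) m = true := by
      simp [hb]
    rw [h1, hr', ← hM, ← ofTM0_halts M e he1 g hg]
    have h2 : (ofTM0 M e g).init ([], g (Helper322.LT.Univ.sym true .cons) ::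
        (PartrecToTM2.trNat (r (T.code, ((q : ℕ), L.map Fin.val, R.map Fin.val)))).reverse.map
          (fun a => g (Helper322.LT.Univ.sym false a))) =
        cf M e g hg (TM0.init (Helper322.LT.Univ.sym true .cons ::
          (PartrecToTM2.trNat (r (T.code, ((q : ℕ), L.map Fin.val, R.map Fin.val)))).reverse.map
            (Helper322.LT.Univ.sym false))) := by
      refine Prod.ext he0.symm ?_
      show Tape.mk₂ _ _ = (Tape.mk₁ _).map _
      rw [Tape.map_mk₁]
      show Tape.mk₂ [] _ = Tape.mk₂ [] _
      congr 1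
      show _ = List.map (fun a => g a) _
      rw [List.map_cons, List.map_map]
      rfl
    rw [h2]

end Pool.Agent.H870R3
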